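import Pool.Agent.H664.QK.Stm

set_option autoImplicit false

namespace Pool.Agent.H548.QK

open Pool.Agent.H664.QK Set

open scoped IntermediateField.algebraAdjoinAdjoin

/-- `Tr` in terms of the rank function of the matroid of algebraic independence -/
theorem tr_iff_eRk {k Ω ι : Type} [Field k] [Field Ω] [Algebra k Ω] (w : ι → Ω) (d : ℕ) :
    Tr k w d ↔ (d : ℕ∞) ≤ (AlgebraicIndependent.matroid k Ω).eRk (range w) := by
  classical
  rw [Matroid.le_eRk_iff]
  constructor
  · rintro ⟨J, hJ, hi⟩
    refine ⟨w '' (J : Set ι), image_subset_range _ _, ?_, ?_⟩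
    · rw [AlgebraicIndependent.matroid_indep_iff]
      have := hi.coe_range
      have e : range (fun j : J => w j) = w '' (J : Set ι) := by
        ext z; simp [mem_range, mem_image]
      rw [e] at this
      exact this
    · have hinj : InjOn w (J : Set ι) := by
        intro a ha b hb hab
        have := hi.injective (a₁ := ⟨a, ha⟩) (a₂ := ⟨b, hb⟩) hab
        exact congrArg Subtype.val this
      rw [hinj.encard_image, Set.encard_coe_eq_coe_finsetCard, hJ]
  · rintro ⟨I, hI, hind, hcard⟩
    rw [AlgebraicIndependent.matroid_indep_iff] at hind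
    have hfin : I.Finite := Set.finite_of_encard_eq_coe hcard
    choose g hg using (fun z : I => hI z.2)
    have hginj : Function.Injective g := by
      intro a b hab
      apply Subtype.ext
      rw [← hg a, ← hg b, hab]
    haveI := hfin.fintype
    refine ⟨Finset.univ.image g, ?_, ?_⟩
    · rw [Finset.card_image_of_injective _ hginj, Finset.card_univ]
      have : I.encard = (Fintype.card I : ℕ∞) := by
        rw [← Set.toFinset_card, ← Set.encard_coe_eq_coe_finsetCard, Set.coe_toFinset]
      rw [this] at hcard
      exact_mod_cast hcard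
    · have hmem : ∀ j : (Finset.univ.image g : Finset ι), ∃ z : I, g z = j ∧ w j = z := by
        rintro ⟨j, hj⟩
        obtain ⟨z, -, rfl⟩ := Finset.mem_image.mp hj
        exact ⟨z, rfl, hg z⟩
      choose r hr1 hr2 using hmem
      have := hind.comp r
        (by
          intro a b hab
          apply Subtype.ext
          rw [← hr1 a, ← hr1 b, hab])
      have e : (fun j : (Finset.univ.image g : Finset ι) => w j) = (fun i : I => id (i : Ω)) ∘ r := by
        funext j
        exact hr2 j
      rw [e]
      exact this

/-- if all `w i` are algebraic over `k (v)` the rank of `v` is at least that of `w` -/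
theorem tr_of_alg {k Ω ι κ : Type} [Field k] [Field Ω] [Algebra k Ω] (w : ι → Ω) (v : κ → Ω)
    (d : ℕ) (h : ∀ i, IsAlgebraic (IntermediateField.adjoin k (range v)) (w i))
    (hw : Tr k w d) : Tr k v d := by
  rw [tr_iff_eRk] at hw ⊢
  refine hw.trans ?_
  rw [← Matroid.eRk_closure_eq _ (range v)]
  apply Matroid.eRk_mono
  rintro _ ⟨i, rfl⟩
  rw [AlgebraicIndependent.matroid_closure_eq]
  show w i ∈ Subalgebra.algebraicClosure _ _
  rw [Subalgebra.mem_algebraicClosure]
  exact (IsFractionRing.isAlgebraic_iff (Algebra.adjoin k (range v))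
    (IntermediateField.adjoin k (range v)) Ω).mpr (h i)

/-- the subspace of all `v` for which `∑ v i • w i` is algebraic over `F` -/
noncomputable def algSub {k Ω : Type} [Field k] [Field Ω] [Algebra k Ω] {N : ℕ} (w : Fin N → Ω)
    (F : IntermediateField k Ω) : Submodule k (Fin N → k) where
  carrier := {v | IsAlgebraic F (∑ i, v i • w i)}
  zero_mem' := by
    simp only [mem_ofPred_eq, Pi.zero_apply, zero_smul, Finset.sum_const_zero]
    exact isAlgebraic_zero
  add_mem' := by
    intro a b ha hb
    simp only [mem_ofPred_eq, Pi.add_apply, add_smul, Finset.sum_add_distrib] at *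
    exact ha.add hb
  smul_mem' := by
    intro c a ha
    simp only [mem_ofPred_eq, Pi.smul_apply, smul_eq_mul, mul_smul, ← Finset.smul_sum] at *
    have : c • ∑ i, a i • w i = (algebraMap k F c) • ∑ i, a i • w i := by
      rw [Algebra.smul_def, Algebra.smul_def]
      rfl
    rw [this]
    exact ha.smul _

theorem mem_algSub {k Ω : Type} [Field k] [Field Ω] [Algebra k Ω] {N : ℕ} (w : Fin N → Ω)
    (F : IntermediateField k Ω) (v : Fin N → k) :
    v ∈ algSub w F ↔ IsAlgebraic F (∑ i, v i • w i) := Iff.rfl

theorem up1 (h : S_cov) : S_up1 := by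
  classical
  intro n d k Ω _ _ _ _ x y htr
  set w := Sum.elim x y with hwdef
  let w' : Fin (n + n) → Ω := w ∘ finSumFinEquiv.symm
  -- nonempty index
  have hN : Nonempty (Fin n) := by
    obtain ⟨J, hJ, -⟩ := htr
    have hne : J.Nonempty := by
      rw [← Finset.card_pos, hJ]; omega
    obtain ⟨j, -⟩ := hne
    rcases j with j | j <;> exact ⟨j⟩
  obtain ⟨i0⟩ := hN
  let F : Matrix (Fin n) (Fin n) ℤ → IntermediateField k Ω := fun M =>
    IntermediateField.adjoin k (range (actF M w))
  let W : Matrix (Fin n) (Fin n) ℤ → Submodule k (Fin (n + n) → k) := fun M =>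
    if Tr k (actF M w) (d + 1) then ⊥ else algSub w' (F M)
  have hW : ∀ M, W M ≠ ⊤ := by
    intro M
    by_cases hM : Tr k (actF M w) (d + 1)
    · simp only [W, hM, if_true]
      intro hbt
      have : (fun _ : Fin (n + n) => (1 : k)) ∈ (⊥ : Submodule k (Fin (n + n) → k)) := by
        rw [hbt]; trivial
      rw [Submodule.mem_bot] at this
      exact one_ne_zero (congrFun this (finSumFinEquiv (Sum.inl i0)))
    · simp only [W, hM, if_false]
      intro htop
      apply hM
      apply tr_of_alg w (actF M w) (d + 1) _ htr
      intro i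
      have hi : (Pi.single (finSumFinEquiv i) (1 : k) : Fin (n + n) → k) ∈ algSub w' (F M) := by
        rw [htop]; trivial
      rw [mem_algSub] at hi
      have e : ∑ j, (Pi.single (finSumFinEquiv i) (1 : k) : Fin (n + n) → k) j • w' j = w i := by
        rw [Finset.sum_eq_single (finSumFinEquiv i)]
        · simp [w']
        · intro b _ hb
          rw [Pi.single_eq_of_ne hb, zero_smul]
        · intro hb
          exact absurd (Finset.mem_univ _) hb
      rw [e] at hi
      exact hi
  haveI : Countable (Matrix (Fin n) (Fin n) ℤ) := by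
    unfold Matrix
    infer_instance
  haveI : Nonempty (Matrix (Fin n) (Fin n) ℤ) := ⟨0⟩
  obtain ⟨f, hf⟩ := exists_surjective_nat (Matrix (Fin n) (Fin n) ℤ)
  obtain ⟨v, hv⟩ := h k (n + n) (fun i => W (f i)) (fun i => hW (f i))
  refine ⟨∑ i, v i • w' i, ?_, ?_⟩
  · apply sum_mem
    intro i _
    apply IntermediateField.smul_mem
    exact IntermediateField.subset_adjoin k _ ⟨finSumFinEquiv.symm i, rfl⟩
  · intro M hM
    by_contra hnot
    obtain ⟨i, rfl⟩ := hf M
    apply hv i
    simp only [W, hnot, if_false]
    rw [mem_algSub]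
    exact hM

end Pool.Agent.H548.QK
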